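import Pool.Agent.T2H17.BL.Main
import Pool.Agent.T2H17.BL.Path

set_option autoImplicit false

/-!
# Brown-Erdos-Sos for all large subsets of almost all Latin squares, with a power saving

A Latin square `L` of order `n` is a linear 3-partite 3-graph with `n²` edges
`(row, column, symbol)` on `3 n` vertices. Solymosi observed that the Brown-Erdos-Sos conjecture is
equivalent to its case of dense subsets of Latin squares. We prove it, for every `k` and with the
power saving bound `n ^ (2 - κ)` in place of `o(n²)`, for every subset of almost every Latin square;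
moreover every locally sparse configuration is found, not only some `(k, k - 3)`-configuration.

Idea of the proof: the sets of triples without a copy of a locally sparse configuration have
`exp (n ^ (2 - θ))` containers of size `n ^ (3 - β)`; by the Bregman-Minc inequality and the lower
bound `exp (-n)` for the permanent of a doubly stochastic matrix every Latin rectangle has about the
same number of completions, and so the first rows of a Latin square may be compared with
independent permutations: few Latin squares have many entries in a given container.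
-/

namespace Pool.Agent.Results.MP_c82047_co.AlmostAllLatinSquares

/-- `L` is a Latin square of order `n`: the symbol in row `i` and column `j` is `L i j`, and no
symbol is repeated in a row or in a column. -/
def IsLatin {n : ℕ} (L : Fin n → Fin n → Fin n) : Prop :=
  (∀ i, Function.Injective (L i)) ∧ ∀ j, Function.Injective fun i => L i j

/-- The Latin squares of order `n`. -/
def latinSquares (n : ℕ) : Set (Fin n → Fin n → Fin n) := {L | IsLatin L}

/-- The entries `(row, column, symbol)` of `L`. -/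
def entries {n : ℕ} (L : Fin n → Fin n → Fin n) : Finset (Fin n × Fin n × Fin n) :=
  Finset.univ.filter fun t => L t.1 t.2.1 = t.2.2

/-- Some `k` vertices (rows `R`, columns `C` and symbols `S`, `k` in total) span at least `s` triples
of `H`. -/
def Spans {n : ℕ} (H : Finset (Fin n × Fin n × Fin n)) (k s : ℕ) : Prop :=
  ∃ R C S : Finset (Fin n), R.card + C.card + S.card = k ∧
    s ≤ (H.filter fun t => t.1 ∈ R ∧ t.2.1 ∈ C ∧ t.2.2 ∈ S).card

/-- The configuration `F` (a finite set of triples) is locally sparse: any `e ≥ 2` of its triples have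
at least `e + 3` vertices (rows, columns and symbols). -/
def LocallySparse {a b c : ℕ} (F : Finset (Fin a × Fin b × Fin c)) : Prop :=
  ∀ E ⊆ F, 2 ≤ E.card → E.card + 3 ≤
    (E.image fun t => t.1).card + (E.image fun t => t.2.1).card + (E.image fun t => t.2.2).card

/-- `H` contains a copy of the configuration `F`, with distinct rows, columns and symbols for the
different vertices of `F`. -/
def Contains {a b c n : ℕ} (H : Finset (Fin n × Fin n × Fin n))
    (F : Finset (Fin a × Fin b × Fin c)) : Prop :=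
  ∃ (f : Fin a → Fin n) (g : Fin b → Fin n) (h : Fin c → Fin n), Function.Injective f ∧
    Function.Injective g ∧ Function.Injective h ∧ ∀ t ∈ F, (f t.1, g t.2.1, h t.2.2) ∈ H

/-- The Latin squares of order `n` which have a set `H` of at least `m` entries without the property
`P`. -/
def exceptional (n : ℕ) (m : ℝ) (P : Finset (Fin n × Fin n × Fin n) → Prop) :
    Set (Fin n → Fin n → Fin n) :=
  {L | IsLatin L ∧ ∃ H ⊆ entries L, m ≤ (H.card : ℝ) ∧ ¬ P H}

open Pool.Agent.T2H17.BL Finset

theorem ent_eq {n : ℕ} (L : Fin n → Fin n → Fin n) : ent L = entries L := by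
  ext t
  rw [mem_ent]
  unfold entries
  simp

theorem isLatin_iff {n : ℕ} (L : Fin n → Fin n → Fin n) :
    IsLatin L ↔ ∃ σ : Fin n → Equiv.Perm (Fin n), Disc σ ∧ (fun i j => σ i j) = L := by
  constructor
  · rintro ⟨h1, h2⟩
    refine ⟨fun i => Equiv.ofBijective (L i) (Finite.injective_iff_bijective.1 (h1 i)), ?_, ?_⟩
    · intro i j hij x h
      simp only [Equiv.ofBijective_apply] at h
      exact hij (h2 x h)
    · funext i j
      simp
  · rintro ⟨σ, h, rfl⟩
    refine ⟨fun i => (σ i).injective, fun j i i' hii => ?_⟩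
    by_contra hne
    exact h i i' hne j hii

theorem toFun_injective {n : ℕ} :
    Function.Injective fun (σ : Fin n → Equiv.Perm (Fin n)) (i j : Fin n) => σ i j := by
  intro σ σ' h
  funext i
  ext j
  exact congrArg Fin.val (congrFun (congrFun h i) j)

theorem ncard_latin (n : ℕ) : (latinSquares n).ncard = (LL n).card := by
  have h : latinSquares n =
      (fun (σ : Fin n → Equiv.Perm (Fin n)) (i j : Fin n) => σ i j) '' (LL n : Set _) := by
    ext L
    rw [Set.mem_image]
    show IsLatin L ↔ _
    rw [isLatin_iff]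
    simp only [mem_coe, mem_LL]
  rw [h, Set.ncard_image_of_injective _ toFun_injective, Set.ncard_coe_finset]

theorem reduce {s a b c : ℕ} (r : Fin s → Fin a) (q : Fin s → Fin b) (z : Fin s → Fin c)
    (hLS : LS r q z) (hs : 1 ≤ s) (N : ℕ) (P : (n : ℕ) → Finset (Fin n × Fin n × Fin n) → Prop)
    (hP : ∀ n, N ≤ n → ∀ H : Finset (Fin n × Fin n × Fin n), ¬ P n H → NoCopy r q z H) :
    ∃ κ : ℝ, 0 < κ ∧ ∃ n₀ : ℕ, ∀ n : ℕ, n₀ ≤ n → ∀ m : ℝ, (n : ℝ) ^ (2 - κ) ≤ m →
      ((exceptional n m (P n)).ncard : ℝ) ≤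
        (n : ℝ) ^ (-(κ * (m / n) ^ 2)) * ((latinSquares n).ncard : ℝ) := by
  classical
  obtain ⟨κ, hκ0, _, n₀, hn₀⟩ := almost_all r q z hLS hs
  refine ⟨κ, hκ0, max (max N 1) n₀, fun n hn m hm => ?_⟩
  have hnN : N ≤ n := ((le_max_left _ _).trans (le_max_left _ _)).trans hn
  have hn1 : 1 ≤ n := ((le_max_right _ _).trans (le_max_left _ _)).trans hn
  have hn0 : (0 : ℝ) < n := by exact_mod_cast hn1
  set B : Finset (Fin n → Equiv.Perm (Fin n)) := univ.filter fun σ =>
    (fun i j => σ i j) ∈ exceptional n m (P n) with hB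
  have h1 : exceptional n m (P n) =
      (fun (σ : Fin n → Equiv.Perm (Fin n)) (i j : Fin n) => σ i j) '' (B : Set _) := by
    ext L
    rw [Set.mem_image]
    constructor
    · intro hL
      obtain ⟨σ, _, rfl⟩ := (isLatin_iff L).1 hL.1
      refine ⟨σ, ?_, rfl⟩
      rw [mem_coe, hB, mem_filter]
      exact ⟨mem_univ _, hL⟩
    · rintro ⟨σ, hσ, rfl⟩
      rw [mem_coe, hB, mem_filter] at hσ
      exact hσ.2
  have h2 := hn₀ n ((le_max_right _ _).trans hn) m hm B ?_
  · rw [h1, Set.ncard_image_of_injective _ toFun_injective, Set.ncard_coe_finset, ncard_latin,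
      mul_comm]
    refine h2.trans (le_of_eq ?_)
    congr 1
    rw [Real.rpow_def_of_pos hn0]
    congr 1
    ring
  · intro σ hσ
    rw [hB, mem_filter] at hσ
    obtain ⟨hL, H, hH1, hH2, hH3⟩ := hσ.2
    refine ⟨?_, H, ?_, hH2, hP n hnN H hH3⟩
    · obtain ⟨σ', h3, h4⟩ := (isLatin_iff _).1 hL
      have h5 := toFun_injective h4
      rw [← h5]
      exact h3
    · rw [ent_eq]
      exact hH1

/-- one property at a time -/
theorem union_bound {ι : Type} [Fintype ι] (P : ι → (n : ℕ) → Finset (Fin n × Fin n × Fin n) → Prop)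
    (h : ∀ i, ∃ κ : ℝ, 0 < κ ∧ ∃ n₀ : ℕ, ∀ n : ℕ, n₀ ≤ n → ∀ m : ℝ, (n : ℝ) ^ (2 - κ) ≤ m →
      ((exceptional n m (P i n)).ncard : ℝ) ≤
        (n : ℝ) ^ (-(κ * (m / n) ^ 2)) * ((latinSquares n).ncard : ℝ)) :
    ∃ κ : ℝ, 0 < κ ∧ ∃ n₀ : ℕ, ∀ n : ℕ, n₀ ≤ n → ∀ m : ℝ, (n : ℝ) ^ (2 - κ) ≤ m →
      ((exceptional n m fun H => ∀ i, P i n H).ncard : ℝ) ≤
        (n : ℝ) ^ (-(κ * (m / n) ^ 2)) * ((latinSquares n).ncard : ℝ) := by
  classical
  choose κ hκ n₀ hn₀ using h
  obtain ⟨K, hK0, hK1, hK⟩ : ∃ K : ℝ, 0 < K ∧ K ≤ 1 ∧ ∀ i, K ≤ κ i := by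
    rcases isEmpty_or_nonempty ι with hι | hι
    · exact ⟨1, one_pos, le_rfl, fun i => hι.elim i⟩
    · obtain ⟨i, hi⟩ := Finite.exists_min κ
      exact ⟨min (κ i) 1, lt_min (hκ i) one_pos, min_le_right _ _,
        fun j => (min_le_left _ _).trans (hi j)⟩
  have hlim : Filter.Tendsto (fun n : ℕ => (n : ℝ) ^ (K / 2)) Filter.atTop Filter.atTop :=
    (tendsto_rpow_atTop (by positivity)).comp tendsto_natCast_atTop_atTop
  obtain ⟨N, hN⟩ := Filter.eventually_atTop.1
    (hlim.eventually_ge_atTop (Fintype.card ι : ℝ))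
  refine ⟨K / 2, by positivity, max (max N 1) (univ.sup n₀), fun n hn m hm => ?_⟩
  have hnN : N ≤ n := ((le_max_left _ _).trans (le_max_left _ _)).trans hn
  have hn1 : 1 ≤ n := ((le_max_right _ _).trans (le_max_left _ _)).trans hn
  have hn1' : (1 : ℝ) ≤ n := by exact_mod_cast hn1
  have hn0 : (0 : ℝ) < n := by linarith
  have hni : ∀ i, n₀ i ≤ n := fun i => (le_sup (mem_univ i)).trans ((le_max_right _ _).trans hn)
  have hmi : ∀ i, (n : ℝ) ^ (2 - κ i) ≤ m := fun i =>
    (Real.rpow_le_rpow_of_exponent_le hn1' (by linarith [hK i])).trans hm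
  have hfin : ∀ Q : Finset (Fin n × Fin n × Fin n) → Prop, (exceptional n m Q).Finite :=
    fun Q => Set.toFinite _
  have h1 : (exceptional n m fun H => ∀ i, P i n H) ⊆ ⋃ i, exceptional n m (P i n) := by
    rintro L ⟨hL, H, hH1, hH2, hH3⟩
    push Not at hH3
    obtain ⟨i, hi⟩ := hH3
    exact Set.mem_iUnion.2 ⟨i, hL, H, hH1, hH2, hi⟩
  have h2 : (⋃ i, exceptional n m (P i n)).ncard ≤ ∑ i, (exceptional n m (P i n)).ncard := by
    have h3 : (⋃ i, exceptional n m (P i n)) =
        ((univ.biUnion fun i => (hfin (P i n)).toFinset : Finset _) : Set _) := by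
      ext L
      simp
    rw [h3, Set.ncard_coe_finset]
    refine card_biUnion_le.trans (le_of_eq (sum_congr rfl fun i _ => ?_))
    rw [Set.ncard_eq_toFinset_card _ (hfin _)]
  have hy : 1 ≤ (m / n) ^ 2 := by
    refine one_le_pow₀ ?_
    rw [le_div_iff₀ hn0, one_mul]
    refine le_trans ?_ hm
    nth_rewrite 1 [← Real.rpow_one (n : ℝ)]
    exact Real.rpow_le_rpow_of_exponent_le hn1' (by linarith)
  calc ((exceptional n m fun H => ∀ i, P i n H).ncard : ℝ)
      ≤ ∑ i, ((exceptional n m (P i n)).ncard : ℝ) := by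
        exact_mod_cast (Set.ncard_le_ncard h1 (Set.toFinite _)).trans h2
    _ ≤ ∑ _i : ι, (n : ℝ) ^ (-(K * (m / n) ^ 2)) * ((latinSquares n).ncard : ℝ) := by
        refine sum_le_sum fun i _ => (hn₀ i n (hni i) m (hmi i)).trans ?_
        refine mul_le_mul_of_nonneg_right ?_ (Nat.cast_nonneg _)
        refine Real.rpow_le_rpow_of_exponent_le hn1' ?_
        have := mul_le_mul_of_nonneg_right (hK i) (sq_nonneg (m / n))
        linarith
    _ = (Fintype.card ι : ℝ) * ((n : ℝ) ^ (-(K * (m / n) ^ 2)) *
          ((latinSquares n).ncard : ℝ)) := by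
        rw [sum_const, card_univ, nsmul_eq_mul]
    _ ≤ (n : ℝ) ^ (K / 2 * (m / n) ^ 2) * ((n : ℝ) ^ (-(K * (m / n) ^ 2)) *
          ((latinSquares n).ncard : ℝ)) := by
        refine mul_le_mul_of_nonneg_right ((hN n hnN).trans ?_) (by positivity)
        refine Real.rpow_le_rpow_of_exponent_le hn1' ?_
        nlinarith
    _ = _ := by
        rw [← mul_assoc, ← Real.rpow_add hn0]
        congr 2
        ring

/-- **Brown-Erdos-Sos with a power saving in almost all Latin squares.** For every `k` there is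
`κ > 0` such that for all large `n` and all `m ≥ n ^ (2 - κ)`, all but at most a proportion
`n ^ (-κ (m / n) ^ 2)` of the Latin squares of order `n` have the following property: in every set of
at least `m` of their entries some `k` vertices span at least `k - 3` triples, and moreover every such
set contains a copy of every locally sparse configuration with at most `k` rows, columns and
symbols. -/
theorem result (k : ℕ) :
    ∃ κ : ℝ, 0 < κ ∧ ∃ n₀ : ℕ, ∀ n : ℕ, n₀ ≤ n → ∀ m : ℝ, (n : ℝ) ^ (2 - κ) ≤ m →
      ((exceptional n m fun H => Spans H k (k - 3) ∧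
        ∀ F : Finset (Fin k × Fin k × Fin k), LocallySparse F → Contains H F).ncard : ℝ) ≤
          (n : ℝ) ^ (-(κ * (m / n) ^ 2)) * ((latinSquares n).ncard : ℝ) := by
  classical
  have hF : ∀ F : Finset (Fin k × Fin k × Fin k), LocallySparse F →
      ∃ κ : ℝ, 0 < κ ∧ ∃ n₀ : ℕ, ∀ n : ℕ, n₀ ≤ n → ∀ m : ℝ, (n : ℝ) ^ (2 - κ) ≤ m →
        ((exceptional n m fun H => Contains H F).ncard : ℝ) ≤
          (n : ℝ) ^ (-(κ * (m / n) ^ 2)) * ((latinSquares n).ncard : ℝ) := by
    intro F hF
    rcases Nat.eq_zero_or_pos F.card with h0 | hs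
    · rw [card_eq_zero] at h0
      subst h0
      refine ⟨1, one_pos, k, fun n hn m _ => ?_⟩
      have h1 : exceptional n m (fun H => Contains H (∅ : Finset (Fin k × Fin k × Fin k))) = ∅ := by
        rw [Set.eq_empty_iff_forall_notMem]
        rintro L ⟨_, H, _, _, h⟩
        apply h
        refine ⟨Fin.castLE hn, Fin.castLE hn, Fin.castLE hn,
          Fin.castLE_injective _, Fin.castLE_injective _, Fin.castLE_injective _, ?_⟩
        intro t ht
        exact absurd ht (notMem_empty t)
      rw [h1, Set.ncard_empty, Nat.cast_zero]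
      positivity
    · set e := F.equivFin with he
      have hLS : LS (fun i : Fin F.card => (e.symm i).1.1) (fun i => (e.symm i).1.2.1)
          (fun i => (e.symm i).1.2.2) := by
        intro E hE
        have hinj : Function.Injective fun i : Fin F.card => (e.symm i).1 := fun i j h =>
          e.symm.injective (Subtype.ext h)
        have h1 := hF (E.image fun i => (e.symm i).1) ?_ ?_
        · rw [card_image_of_injective _ hinj, image_image, image_image, image_image] at h1
          exact h1
        · intro t ht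
          obtain ⟨i, _, rfl⟩ := mem_image.1 ht
          exact (e.symm i).2
        · rw [card_image_of_injective _ hinj]
          exact hE
      refine reduce _ _ _ hLS hs 0 (fun n H => Contains H F) ?_
      intro n _ H hH φ hφ hall
      apply hH
      obtain ⟨h1, h2, h3⟩ := mem_inj.1 hφ
      refine ⟨φ.1, φ.2.1, φ.2.2, h1, h2, h3, fun t ht => ?_⟩
      have h4 := hall (e ⟨t, ht⟩)
      unfold tri at h4
      simpa using h4
  have hk : ∃ κ : ℝ, 0 < κ ∧ ∃ n₀ : ℕ, ∀ n : ℕ, n₀ ≤ n → ∀ m : ℝ, (n : ℝ) ^ (2 - κ) ≤ m →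
        ((exceptional n m fun H => Spans H k (k - 3)).ncard : ℝ) ≤
          (n : ℝ) ^ (-(κ * (m / n) ^ 2)) * ((latinSquares n).ncard : ℝ) := by
    rcases Nat.lt_or_ge k 4 with hk | hk
    · refine ⟨1, one_pos, k, fun n hn m _ => ?_⟩
      have h1 : exceptional n m (fun H => Spans H k (k - 3)) = ∅ := by
        rw [Set.eq_empty_iff_forall_notMem]
        rintro L ⟨_, H, _, _, h⟩
        apply h
        obtain ⟨R, _, hR⟩ := exists_subset_card_eq (s := (univ : Finset (Fin n))) (n := k)
          (by rw [card_univ, Fintype.card_fin]; exact hn)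
        exact ⟨R, ∅, ∅, by rw [card_empty]; omega, by omega⟩
      rw [h1, Set.ncard_empty, Nat.cast_zero]
      positivity
    · refine reduce _ _ _ (path_LS (k - 3)) (by omega) k (fun n H => Spans H k (k - 3)) ?_
      intro n hn H hH φ hφ hall
      apply hH
      obtain ⟨R, C, S, h1, h2⟩ := path_spans (s := k - 3) (by omega) H φ hφ hall
      exact ⟨R, C, S, by omega, h2⟩
  obtain ⟨κ, hκ, n₀, hn₀⟩ := union_bound
    (ι := Option {F : Finset (Fin k × Fin k × Fin k) // LocallySparse F})
    (fun i n H => match i with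
      | none => Spans H k (k - 3)
      | some F => Contains H F.1) (by
      rintro (_ | F)
      · exact hk
      · exact hF F.1 F.2)
  refine ⟨κ, hκ, n₀, fun n hn m hm => le_trans ?_ (hn₀ n hn m hm)⟩
  refine Nat.cast_le.2 (Set.ncard_le_ncard ?_ (Set.toFinite _))
  rintro L ⟨hL, H, hH1, hH2, hH3⟩
  refine ⟨hL, H, hH1, hH2, fun hall => hH3 ⟨hall none, fun F hF => hall (some ⟨F, hF⟩)⟩⟩

end Pool.Agent.Results.MP_c82047_co.AlmostAllLatinSquares
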