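import Pool.Agent.T2H80.Bes.Action

set_option autoImplicit false

/-!
# The Brown-Erdős-Sós conjecture for triple systems whose columns have few quotients

Let `k = 21` or `k ≥ 25`. The three vertices of every edge `e` of a 3-graph `H` on `n` vertices are
named `x e`, `y e`, `z e` in some way; for a fixed vertex `y` the edges `e` with `y e = y` (the column
of `y`) give a relation between the vertices `x e` and `z e`. Assume that every `k` vertices of `H`
span fewer than `k - 3` edges.

(2) Suppose that the columns belong to an action of a group `Γ` on a set `Ω`: `c (z e) = γ (y e) • a (x e)`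
for all edges, with maps `a, c : V → Ω`, `a` injective, and `γ : V → Γ`. Let `G` be the set of the
quotients `(γ (y f))⁻¹ * γ (y e)` of the columns. Then `|H| ≤ C n^(5/3) |G|^(1/6)`, and
`|H| ≤ C D^(1/6) n^(11/6)` if at most `D` elements of `G` send any given `a v` to any given `a w`.
For instance `H` may be any set of cells of a Latin square (identify the symbols with the columns, then
the rows `γ` are permutations): if `H` has `ε n²` edges, then the rows of the
Latin square have at least `c(ε) n²` different quotients; their number is `n` for a group table, and at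
most `n² / m` if a group of order `m` acts freely on the rows by autotopisms which fix all columns (for
instance for the product of an arbitrary quasigroup and a group of order `m`). For the multiplication
table of any group (`D = 1`), restricted to arbitrary subsets with at most `n` elements, we get
`|H| ≤ C n^(11/6)`.

(1) More generally assign to every pair of vertices `v`, `w` one of the partial maps of a finite family
`φ` of partial maps of the set of vertices, and let `T` be the number of pairs `(g, v)` such that `φ g`
is defined at `v`. If all but `c |H|² / n` of the pairs of edges `e`, `f` with `z e = z f` follow the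
assignment, that is, the partial map assigned to `y e`, `y f` sends `x e` to `x f`, then
`|H| ≤ C n^(3/2) T^(1/6)`. So, for `|H| = ε n²`, the quotients of the columns cannot be described by
partial maps with `o(n³)` values, where `n³` is trivial.

Proof. It suffices to consider a linear `H`. Count the pairs of edges `{x, y, z}`, `{x', y', z}` with a
common last vertex; there are at least `|H|²/n`. For every `g` they form a bipartite graph between the
points `(x, φ g x)` and the pairs `(y, y')` with the label `g`. By the argument of Kővári, Sós and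
Turán, applied to all these graphs simultaneously, three points lie on `t` common pairs
`(y, y')`; this is a grid of `6 t` edges on `6 + 5 t` vertices, and it contains `s` edges on `s + 3`
vertices for `s = 18` and for all `s ≥ 22`.
-/

namespace Pool.Agent.Results.MP_c82047_co.FewQuotients

open Finset Pool.Agent.T2H80.Bes

theorem result (k : ℕ) (hk : k = 21 ∨ 25 ≤ k) :
    -- (1) partial maps
    (∃ c C : ℝ, 0 < c ∧ 0 < C ∧
    ∀ (V Γ : Type) [Fintype V] [DecidableEq V] [Fintype Γ] (x y z : Finset V → V)
      (H : Finset (Finset V)) (lab : V → V → Γ) (φ : Γ → V → Option V),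
      (∀ e ∈ H, e.card = 3 ∧ e = {x e, y e, z e}) →
      (∀ S : Finset V, S.card = k → #{e ∈ H | e ⊆ S} < k - 3) →
      (Fintype.card V : ℝ) * #{q ∈ H ×ˢ H | z q.1 = z q.2 ∧
        φ (lab (y q.1) (y q.2)) (x q.1) ≠ some (x q.2)} ≤ c * (#H : ℝ) ^ 2 →
      (#H : ℝ) ≤ C * ((Fintype.card V : ℝ) ^ (3 / 2 : ℝ) *
        ((∑ g : Γ, #{v | φ g v ≠ none} : ℕ) : ℝ) ^ (1 / 6 : ℝ))) ∧
    -- (2) group actions
    (∃ C : ℝ, 0 < C ∧
    ∀ (V Ω Γ : Type) [Fintype V] [DecidableEq V] [Group Γ] [MulAction Γ Ω] (a c : V → Ω)
      (γ : V → Γ) (x y z : Finset V → V) (H : Finset (Finset V)) (G : Set Γ) (D : ℕ),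
      Function.Injective a →
      (∀ e ∈ H, e.card = 3 ∧ e = {x e, y e, z e}) →
      (∀ e ∈ H, c (z e) = γ (y e) • a (x e)) →
      (∀ S : Finset V, S.card = k → #{e ∈ H | e ⊆ S} < k - 3) →
      G = {g | ∃ e ∈ H, ∃ f ∈ H, g = (γ (y f))⁻¹ * γ (y e)} →
      (∀ v w, {g | g ∈ G ∧ g • a v = a w}.ncard ≤ D) →
      (#H : ℝ) ≤ C * (Fintype.card V : ℝ) ^ (5 / 3 : ℝ) * (G.ncard : ℝ) ^ (1 / 6 : ℝ) ∧
      (#H : ℝ) ≤ C * (D : ℝ) ^ (1 / 6 : ℝ) * (Fintype.card V : ℝ) ^ (11 / 6 : ℝ)) :=
  ⟨few_quot k hk, action k hk⟩

end Pool.Agent.Results.MP_c82047_co.FewQuotients
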