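import Pool.Agent.T2H80.Bes.Metric

set_option autoImplicit false

/-!
# The Brown-Erdős-Sós conjecture: the columns of a counterexample are incompressible

Let `k = 21` or `k ≥ 25`. The three vertices of every edge `e` of a 3-graph `H` on `n` vertices are
named `x e`, `y e`, `z e` in some way. Assume that every `k` vertices of `H` span fewer than `k - 3`
edges.

(1) Let `p` be a partition of the vertices into classes with at most `K` vertices. Two edges `e`, `f`
with `z e = z f` connect the class of `x e` with the class of `x f` for the pair `(y e, y f)`. Let `M`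
be the number of quadruples (two middle vertices, two classes) that occur (at most `n` pairs of
classes for each pair of middle vertices, if `H` is linear). Then
`|H| ≤ C ((n M)^(1/2) + n^(5/6) M^(1/3) K^(2/3) + n K)`. So if `|H| ≥ ε n²` then
`M ≥ c min (ε² n³, ε³ n^(7/2) / K²)` (for `K ≤ c ε n`): for every partition into classes with at
most `n^(1/4)` vertices the relations between the vertices `x` and `x'` given by two columns meet on
average `c(ε) n` pairs of classes, the maximum possible up to a constant.

(2) Bi-Lipschitz columns: let the vertices form a metric space in which the balls of radius `r` have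
between `r^d / b` and `b r^d` points (for `1 ≤ r ≤ n^(1/d)`), for instance the points of a grid in
`ℝ^d`, a net of a compact Lie group or of a compact Riemannian manifold, or a ball in a nilpotent
group, where `d` is a real number. Suppose that for every vertex `y` the vertices `z e`
with `y e = y` are a bi-Lipschitz function of `x e` with constant `L` (with respect to an arbitrary
function `δ` as distance of the vertices `z e`). Then `|H| ≤ C(d, b, L, k) n^(19/10)`.

Proof. It suffices to consider a linear `H`. The at least `|H|²/n` pairs of edges `{x, y, z}`,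
`{x', y', z}` with a common last vertex are incidences between points `(x, x')` and curves `(y, y')`;
by definition `M` pairs of a curve and a cell (a pair of classes) meet. By the argument of Kővári, Sós
and Turán, applied in all cells simultaneously, three points of a cell lie on `t` common
curves. This is a grid of `6 t` edges on `6 + 5 t` vertices, and it contains `s` edges on
`s + 3` vertices for `s = 18` and for all `s ≥ 22`. For (2) the classes are the Voronoi cells of a
net with distance about `n^(1/(5 d))`; a class is sent to a bounded number of classes.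
-/

namespace Pool.Agent.Results.MP_c82047_co.IncompressibleColumns

open Finset Pool.Agent.T2H80.Bes

theorem result (k : ℕ) (hk : k = 21 ∨ 25 ≤ k) :
    -- (1) partitions
    (∃ C : ℝ, 0 < C ∧
    ∀ (V : Type) [Fintype V] [DecidableEq V] (x y z : Finset V → V) (H : Finset (Finset V))
      (p : V → ℕ) (K M : ℕ),
      (∀ e ∈ H, e.card = 3 ∧ e = {x e, y e, z e}) →
      (∀ S : Finset V, S.card = k → #{e ∈ H | e ⊆ S} < k - 3) →
      (∀ v, #{w | p w = p v} ≤ K) →
      M = #(({q ∈ H ×ˢ H | z q.1 = z q.2}).image
        (fun q => ((y q.1, y q.2), (p (x q.1), p (x q.2))))) →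
      (#H : ℝ) ≤ C * (((Fintype.card V : ℝ) * M) ^ (1 / 2 : ℝ) +
        (Fintype.card V : ℝ) ^ (5 / 6 : ℝ) * (M : ℝ) ^ (1 / 3 : ℝ) * (K : ℝ) ^ (2 / 3 : ℝ) +
        Fintype.card V * K)) ∧
    -- (2) bi-Lipschitz columns
    (∀ d b L : ℝ, 0 < d → 1 ≤ b → 1 ≤ L → ∃ C : ℝ, 0 < C ∧
    ∀ (V : Type) [Fintype V] [DecidableEq V] [PseudoMetricSpace V] (δ : V → V → ℝ)
      (x y z : Finset V → V) (H : Finset (Finset V)),
      (∀ v : V, ∀ r : ℝ, 1 ≤ r → r ^ d ≤ Fintype.card V →
        r ^ d / b ≤ ({w | dist w v ≤ r}.ncard : ℝ) ∧ ({w | dist w v ≤ r}.ncard : ℝ) ≤ b * r ^ d) →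
      (∀ e ∈ H, e.card = 3 ∧ e = {x e, y e, z e}) →
      (∀ e ∈ H, ∀ f ∈ H, y e = y f →
        dist (x e) (x f) ≤ L * δ (z e) (z f) ∧ δ (z e) (z f) ≤ L * dist (x e) (x f)) →
      (∀ S : Finset V, S.card = k → #{e ∈ H | e ⊆ S} < k - 3) →
      (#H : ℝ) ≤ C * (Fintype.card V : ℝ) ^ (19 / 10 : ℝ)) :=
  ⟨coarse k hk, fun d b L hd hb hL => metric k hk d b L hd hb hL⟩

end Pool.Agent.Results.MP_c82047_co.IncompressibleColumns
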