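import Pool.Agent.T2H80.Bes.Main

set_option autoImplicit false

/-!
# The Brown-Erdős-Sós conjecture for triple systems made of monotone pieces

A set of edges of a 3-graph is a *monotone piece* with respect to two orders of the vertices
(`MonotonePiece`) if its edges are `{x e, v, z e}` with one fixed vertex `v`, such that `z e` is a
weakly increasing, or a weakly decreasing, function of `x e`. Let `k = 21` or `k ≥ 25`. We prove: if
every `k` vertices of the 3-graph `H` on `n` vertices span fewer than `k - 3` edges, and the edges of
`H` are covered by `P` monotone pieces, each with respect to one of `L` pairs of orders, then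

`|H| ≤ C L^(1/5) P^(4/5) n^(11/10)`.

So a 3-graph with `ε n²` edges and no `k` vertices that span `k - 3` edges satisfies
`L P⁴ ≥ c n^(9/2)`: for one pair of orders at least `c n^(9/8)` monotone pieces are needed, and for
`P = O(n)` pieces at least `c n^(1/2)` pairs of orders. For instance the bound
`|H| ≤ C m^(4/5) n^(19/10)` holds if (for one pair of orders) the pairs `(x, z)` in the link of every
vertex `v` are a union of `m` monotone sets (`m = O(n^(1/2))` is always possible by the theorem of
Erdős and Szekeres), e.g. for the triples `{a, b, F(a, b)}` on finite sets of real numbers, where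
`F` is an arbitrary function which is piecewise monotone in `a` with at most `m` pieces for every `b`.

Proof. It suffices to consider a linear `H` and one pair of orders. Count the pairs of edges
`{x, y, z}`, `{x', y', z}` with a common last vertex, there are at least `|H|²/n`. They are incidences
between the points `(x, x')` and the curves, the pairs of pieces. Cut the first order into
intervals with `K` vertices; a curve is a monotone chain and meets at most `2 n / K + 1` of the
`(n / K)²` cells (pairs of intervals). Now apply the argument of Kővári, Sós and Turán in every cell: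
for a suitable `K` (about `n^(1/5)` for `P = n`) three points of a cell lie on `t` common curves.
This is a grid of `6 t` edges on `6 + 5 t` vertices, and it contains `s` edges on `s + 3` vertices
for `s = 18` and for all `s ≥ 22`.
-/

namespace Pool.Agent.Results.MP_c82047_co.MonotonePieces

open Finset Pool.Agent.T2H80.Bes

theorem result (k : ℕ) (hk : k = 21 ∨ 25 ≤ k) : ∃ C : ℝ, 0 < C ∧
    ∀ (V ι : Type) [Fintype V] [DecidableEq V] [Fintype ι] (α β : ι → V → ℝ)
      (H : Finset (Finset V)) (A : Finset (Finset (Finset V))),
      (∀ i, Function.Injective (α i)) → (∀ i, Function.Injective (β i)) →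
      (∀ e ∈ H, e.card = 3) →
      (∀ B ∈ A, ∃ i, MonotonePiece (α i) (β i) B) → (∀ e ∈ H, ∃ B ∈ A, e ∈ B) →
      (∀ S : Finset V, S.card = k → #{e ∈ H | e ⊆ S} < k - 3) →
      (#H : ℝ) ≤ C * (Fintype.card ι : ℝ) ^ (1 / 5 : ℝ) * (#A : ℝ) ^ (4 / 5 : ℝ) *
        (Fintype.card V : ℝ) ^ (11 / 10 : ℝ) :=
  bes_mono k hk

end Pool.Agent.Results.MP_c82047_co.MonotonePieces
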